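import Pool.Agent.Y743.CC.Stm

/-!
Project CC: the correlation of the prime polynomials at `t` and at `f t`.
-/

set_option autoImplicit false

open MeasureTheory Filter Set

namespace Pool.Agent.Y888.CR

open Pool.Agent.Y743.CC
open Pool.Agent.Y743.AF (Prm)

/-- the cut at a threshold -/
noncomputable def ind (θ x : ℝ) : ℝ := if |x| ≤ θ then 1 else 0

theorem ind_nonneg (θ x : ℝ) : 0 ≤ ind θ x := by
  unfold ind
  split_ifs <;> norm_num

theorem ind_le (θ x : ℝ) : ind θ x ≤ 1 := by
  unfold ind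
  split_ifs <;> norm_num

theorem ind_meas (θ : ℝ) : Measurable (ind θ) := by
  unfold ind
  exact Measurable.ite (measurableSet_le (by fun_prop) measurable_const) measurable_const
    measurable_const

theorem mono_meas {g : ℝ → ℝ} {A B : ℝ}
    (hg : MonotoneOn g (Icc A B) ∨ AntitoneOn g (Icc A B)) :
    AEMeasurable g (volume.restrict (Icc A B)) := by
  rcases hg with hg | hg
  · exact aemeasurable_restrict_of_monotoneOn measurableSet_Icc hg
  · exact aemeasurable_restrict_of_antitoneOn measurableSet_Icc hg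

theorem ind_int {g : ℝ → ℝ} {A B : ℝ} (hAB : A ≤ B)
    (hg : MonotoneOn g (Icc A B) ∨ AntitoneOn g (Icc A B)) (θ : ℝ) :
    IntervalIntegrable (fun t => ind θ (g t)) volume A B := by
  rw [intervalIntegrable_iff_integrableOn_Icc_of_le hAB]
  refine Integrable.of_bound
    ((ind_meas θ).comp_aemeasurable (mono_meas hg)).aestronglyMeasurable 1 ?_
  refine Eventually.of_forall fun t => ?_
  rw [Real.norm_eq_abs, abs_of_nonneg (ind_nonneg _ _)]
  exact ind_le _ _

theorem int_sum {s : Finset ℕ} {F : ℕ → ℝ → ℝ} {A B : ℝ}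
    (h : ∀ i ∈ s, IntervalIntegrable (F i) volume A B) :
    IntervalIntegrable (fun t => ∑ i ∈ s, F i t) volume A B := by
  have h1 := IntervalIntegrable.sum s h
  have h2 : (fun t => ∑ i ∈ s, F i t) = ∑ i ∈ s, F i := by
    funext t
    rw [Finset.sum_apply]
  rw [h2]
  exact h1

/-- the test on a half open interval, by a limit -/
theorem lim_right {F : ℝ → ℝ} {A c K : ℝ} (hAc : A ≤ c)
    (hint : ∀ x ∈ Icc A c, IntervalIntegrable (fun t => Real.cos (F t)) volume A x) (hK : 0 ≤ K)
    (h : ∀ x, A ≤ x → x < c → |∫ t in A..x, Real.cos (F t)| ≤ K) :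
    |∫ t in A..c, Real.cos (F t)| ≤ K := by
  rcases hAc.eq_or_lt with rfl | hAc'
  · simpa using hK
  refine le_of_forall_pos_le_add fun δ hδ => ?_
  obtain ⟨x, hx1, hx2, hx3⟩ : ∃ x, A ≤ x ∧ x < c ∧ c - x ≤ δ := by
    refine ⟨max A (c - δ), le_max_left _ _, max_lt hAc' (by linarith), ?_⟩
    have := le_max_right A (c - δ)
    linarith
  have hi1 := hint x ⟨hx1, hx2.le⟩
  have hi2 := hint c ⟨hAc, le_rfl⟩
  have e1 : ∫ t in A..c, Real.cos (F t) =
      (∫ t in A..x, Real.cos (F t)) + ∫ t in x..c, Real.cos (F t) :=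
    (intervalIntegral.integral_add_adjacent_intervals hi1 (hi1.symm.trans hi2)).symm
  have e2 : ‖∫ t in x..c, Real.cos (F t)‖ ≤ 1 * |c - x| :=
    intervalIntegral.norm_integral_le_of_norm_le_const fun t _ => by
      rw [Real.norm_eq_abs]
      exact Real.abs_cos_le_one _
  rw [abs_of_pos (sub_pos.2 hx2), Real.norm_eq_abs] at e2
  rw [e1]
  have e3 := h x hx1 hx2
  have e4 := abs_add_le (∫ t in A..x, Real.cos (F t)) (∫ t in x..c, Real.cos (F t))
  linarith

theorem lim_left {F : ℝ → ℝ} {d B K : ℝ} (hdB : d ≤ B)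
    (hint : ∀ x ∈ Icc d B, IntervalIntegrable (fun t => Real.cos (F t)) volume x B) (hK : 0 ≤ K)
    (h : ∀ x, d < x → x ≤ B → |∫ t in x..B, Real.cos (F t)| ≤ K) :
    |∫ t in d..B, Real.cos (F t)| ≤ K := by
  rcases hdB.eq_or_lt with rfl | hdB'
  · simpa using hK
  refine le_of_forall_pos_le_add fun δ hδ => ?_
  obtain ⟨x, hx1, hx2, hx3⟩ : ∃ x, x ≤ B ∧ d < x ∧ x - d ≤ δ := by
    refine ⟨min B (d + δ), min_le_left _ _, lt_min hdB' (by linarith), ?_⟩
    have := min_le_right B (d + δ)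
    linarith
  have hi1 := hint x ⟨hx2.le, hx1⟩
  have hi2 := hint d ⟨le_rfl, hdB⟩
  have e1 : ∫ t in d..B, Real.cos (F t) =
      (∫ t in d..x, Real.cos (F t)) + ∫ t in x..B, Real.cos (F t) :=
    (intervalIntegral.integral_add_adjacent_intervals (hi2.trans hi1.symm) hi1).symm
  have e2 : ‖∫ t in d..x, Real.cos (F t)‖ ≤ 1 * |x - d| :=
    intervalIntegral.norm_integral_le_of_norm_le_const fun t _ => by
      rw [Real.norm_eq_abs]
      exact Real.abs_cos_le_one _
  rw [abs_of_pos (sub_pos.2 hx2), Real.norm_eq_abs] at e2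
  rw [e1]
  have e3 := h x hx2 hx1
  have e4 := abs_add_le (∫ t in d..x, Real.cos (F t)) (∫ t in x..B, Real.cos (F t))
  linarith

/-- the first derivative test with a small derivative on a part, monotone case -/
theorem test_mono (fd : S_FD) {F g : ℝ → ℝ} {A B θ : ℝ} (hAB : A ≤ B) (hθ : 0 < θ)
    (hF : ∀ t ∈ Icc A B, HasDerivAt F (g t) t) (hg : MonotoneOn g (Icc A B)) :
    |∫ t in A..B, Real.cos (F t)| ≤ 8 / θ + ∫ t in A..B, ind θ (g t) := by
  have hcont : ContinuousOn (fun t => Real.cos (F t)) (Icc A B) := fun t ht =>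
    (Real.continuous_cos.continuousAt.comp (hF t ht).continuousAt).continuousWithinAt
  have hint : ∀ x ∈ Icc A B, ∀ y ∈ Icc A B,
      IntervalIntegrable (fun t => Real.cos (F t)) volume x y := fun x hx y hy =>
    (hcont.mono (ordConnected_Icc.uIcc_subset hx hy)).intervalIntegrable
  set S1 : Set ℝ := {t | t ∈ Icc A B ∧ g t < -θ} with hS1
  set S2 : Set ℝ := {t | t ∈ Icc A B ∧ θ < g t} with hS2
  set c := sSup (insert A S1) with hc
  set d := sInf (insert B S2) with hd
  have hb1 : BddAbove (insert A S1) := ⟨B, fun x hx => by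
    rcases hx with rfl | hx
    · exact hAB
    · exact hx.1.2⟩
  have hb2 : BddBelow (insert B S2) := ⟨A, fun x hx => by
    rcases hx with rfl | hx
    · exact hAB
    · exact hx.1.1⟩
  have hAc : A ≤ c := le_csSup hb1 (mem_insert _ _)
  have hcB : c ≤ B := csSup_le ⟨A, mem_insert _ _⟩ fun x hx => by
    rcases hx with rfl | hx
    · exact hAB
    · exact hx.1.2
  have hdB : d ≤ B := csInf_le hb2 (mem_insert _ _)
  have hAd : A ≤ d := le_csInf ⟨B, mem_insert _ _⟩ fun x hx => by
    rcases hx with rfl | hx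
    · exact hAB
    · exact hx.1.1
  have hcd : c ≤ d := by
    refine csSup_le ⟨A, mem_insert _ _⟩ fun x hx => le_csInf ⟨B, mem_insert _ _⟩ fun y hy => ?_
    rcases hx with rfl | hx
    · rcases hy with rfl | hy
      · exact hAB
      · exact hy.1.1
    · rcases hy with rfl | hy
      · exact hx.1.2
      · by_contra hlt
        push Not at hlt
        have := hg hy.1 hx.1 hlt.le
        have h1 := hx.2
        have h2 := hy.2
        linarith
  have hlow : ∀ t, A ≤ t → t < c → g t ≤ -θ := by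
    intro t ht1 ht2
    obtain ⟨x, hx, htx⟩ := exists_lt_of_lt_csSup ⟨A, mem_insert _ _⟩ ht2
    rcases hx with rfl | hx
    · linarith
    · exact (hg ⟨ht1, htx.le.trans hx.1.2⟩ hx.1 htx.le).trans hx.2.le
  have hhigh : ∀ t, d < t → t ≤ B → θ ≤ g t := by
    intro t ht1 ht2
    obtain ⟨x, hx, hxt⟩ := exists_lt_of_csInf_lt ⟨B, mem_insert _ _⟩ ht1
    rcases hx with rfl | hx
    · linarith
    · exact hx.2.le.trans (hg hx.1 ⟨hx.1.1.trans hxt.le, ht2⟩ hxt.le)
  have hmid : ∀ t ∈ Ioo c d, ind θ (g t) = 1 := by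
    intro t ht
    have htI : t ∈ Icc A B := ⟨hAc.trans ht.1.le, ht.2.le.trans hdB⟩
    have h1 : -θ ≤ g t := by
      by_contra hlt
      push Not at hlt
      have : t ≤ c := le_csSup hb1 (mem_insert_of_mem _ ⟨htI, hlt⟩)
      linarith [ht.1]
    have h2 : g t ≤ θ := by
      by_contra hlt
      push Not at hlt
      have : d ≤ t := csInf_le hb2 (mem_insert_of_mem _ ⟨htI, hlt⟩)
      linarith [ht.2]
    unfold ind
    rw [if_pos (abs_le.2 ⟨h1, h2⟩)]
  have hθ4 : (0 : ℝ) ≤ 4 / θ := by positivity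
  have k1 : |∫ t in A..c, Real.cos (F t)| ≤ 4 / θ := by
    refine lim_right hAc (fun x hx => hint A ⟨le_rfl, hAB⟩ x ⟨hx.1, hx.2.trans hcB⟩) hθ4 ?_
    intro x hx1 hx2
    have hsub : Icc A x ⊆ Icc A B := Icc_subset_Icc_right (hx2.le.trans hcB)
    refine fd F g A x θ hx1 hθ (fun t ht => hF t (hsub ht)) (Or.inl (hg.mono hsub)) ?_
    intro t ht
    have := hlow t ht.1 (ht.2.trans_lt hx2)
    rw [abs_of_nonpos (by linarith)]
    linarith
  have k2 : |∫ t in d..B, Real.cos (F t)| ≤ 4 / θ := by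
    refine lim_left hdB (fun x hx => hint x ⟨hAd.trans hx.1, hx.2⟩ B ⟨hAB, le_rfl⟩) hθ4 ?_
    intro x hx1 hx2
    have hsub : Icc x B ⊆ Icc A B := Icc_subset_Icc_left (hAd.trans hx1.le)
    refine fd F g x B θ hx2 hθ (fun t ht => hF t (hsub ht)) (Or.inl (hg.mono hsub)) ?_
    intro t ht
    have := hhigh t (hx1.trans_le ht.1) ht.2
    rw [abs_of_nonneg (by linarith)]
    exact this
  have hiI := ind_int hAB (Or.inl hg) θ
  have hsubI : uIcc c d ⊆ uIcc A B := by
    rw [uIcc_of_le hcd, uIcc_of_le hAB]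
    exact Icc_subset_Icc hAc hdB
  have k3 : |∫ t in c..d, Real.cos (F t)| ≤ ∫ t in c..d, ind θ (g t) := by
    refine (intervalIntegral.abs_integral_le_integral_abs hcd).trans ?_
    rw [intervalIntegral.integral_of_le hcd, intervalIntegral.integral_of_le hcd,
      integral_Ioc_eq_integral_Ioo, integral_Ioc_eq_integral_Ioo]
    refine setIntegral_mono_on ?_ ?_ measurableSet_Ioo ?_
    · have h1 := (hint c ⟨hAc, hcB⟩ d ⟨hAd, hdB⟩).abs
      rw [intervalIntegrable_iff_integrableOn_Ioc_of_le hcd] at h1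
      exact h1.mono_set Ioo_subset_Ioc_self
    · have h1 := hiI.mono_set hsubI
      rw [intervalIntegrable_iff_integrableOn_Ioc_of_le hcd] at h1
      exact h1.mono_set Ioo_subset_Ioc_self
    · intro t ht
      rw [hmid t ht]
      exact Real.abs_cos_le_one _
  have k4 : ∫ t in c..d, ind θ (g t) ≤ ∫ t in A..B, ind θ (g t) :=
    intervalIntegral.integral_mono_interval hAc hcd hdB
      (Eventually.of_forall fun t => ind_nonneg _ _) hiI
  have e1 : ∫ t in A..B, Real.cos (F t) = (∫ t in A..c, Real.cos (F t)) +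
      (∫ t in c..d, Real.cos (F t)) + ∫ t in d..B, Real.cos (F t) := by
    rw [intervalIntegral.integral_add_adjacent_intervals
      (hint A ⟨le_rfl, hAB⟩ c ⟨hAc, hcB⟩) (hint c ⟨hAc, hcB⟩ d ⟨hAd, hdB⟩),
      intervalIntegral.integral_add_adjacent_intervals
      (hint A ⟨le_rfl, hAB⟩ d ⟨hAd, hdB⟩) (hint d ⟨hAd, hdB⟩ B ⟨hAB, le_rfl⟩)]
  have e2 := abs_add_three (∫ t in A..c, Real.cos (F t)) (∫ t in c..d, Real.cos (F t))
    (∫ t in d..B, Real.cos (F t))
  have e3 : (8 : ℝ) / θ = 4 / θ + 4 / θ := by ring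
  rw [e1, e3]
  linarith

theorem test (fd : S_FD) {F g : ℝ → ℝ} {A B θ : ℝ} (hAB : A ≤ B) (hθ : 0 < θ)
    (hF : ∀ t ∈ Icc A B, HasDerivAt F (g t) t)
    (hg : MonotoneOn g (Icc A B) ∨ AntitoneOn g (Icc A B)) :
    |∫ t in A..B, Real.cos (F t)| ≤ 8 / θ + ∫ t in A..B, ind θ (g t) := by
  rcases hg with hg | hg
  · exact test_mono fd hAB hθ hF hg
  · have h1 := test_mono fd (F := fun t => -F t) (g := fun t => -g t) hAB hθ
      (fun t ht => (hF t ht).neg) (fun x hx y hy hxy => neg_le_neg (hg hx hy hxy))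
    have h2 : (fun t => Real.cos (-F t)) = fun t => Real.cos (F t) := by
      funext t
      exact Real.cos_neg _
    have h3 : (fun t => ind θ (-g t)) = fun t => ind θ (g t) := by
      funext t
      unfold ind
      rw [abs_neg]
    rw [h2, h3] at h1
    exact h1

theorem prime_of_mem {X p : ℕ} (h : p ∈ Prm X) : p.Prime := (Finset.mem_filter.1 h).2

theorem card_Prm (X : ℕ) : ((Prm X).card : ℝ) ≤ X := by
  have h1 : (Prm X).card ≤ (Finset.Icc 1 X).card := Finset.card_filter_le _ _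
  rw [Nat.card_Icc, Nat.add_sub_cancel] at h1
  exact_mod_cast h1

theorem cr (fd : S_FD) (lp : S_LP) : S_CR := by
  intro ε hε
  obtain ⟨η, T0, hη, hT0, hlp⟩ := lp ε hε
  refine ⟨η, max T0 ((16 / ε) ^ 4), hη, hT0.trans (le_max_left _ _), ?_⟩
  intro T hT X hX u hu f f' A B b m hAB hBA hm hf hmono hf'
  have hTT0 : T0 ≤ T := (le_max_left _ _).trans hT
  have hT1 : 1 ≤ T := hT0.trans hTT0
  have hTpos : 0 < T := by linarith
  have hTε : (16 / ε) ^ 4 ≤ T := (le_max_right _ _).trans hT
  set θ : ℝ := T ^ (-(1 / 2) : ℝ) with hθ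
  have hθ0 : 0 < θ := Real.rpow_pos_of_pos hTpos _
  have hu1 : ∀ p ∈ Prm X, |u p| ≤ 1 := by
    intro p hp
    have hp' := prime_of_mem hp
    refine ((hu p hp').1).trans ?_
    have h1 : (1 : ℝ) ≤ √(p : ℝ) := by
      rw [Real.one_le_sqrt]
      exact_mod_cast hp'.one_lt.le
    rw [div_le_one (by linarith)]
    exact h1
  have hlog : ∀ p ∈ Prm X, 1 / 2 ≤ Real.log p := by
    intro p hp
    have h1 : Real.log 2 ≤ Real.log p :=
      Real.log_le_log (by norm_num) (by exact_mod_cast (prime_of_mem hp).two_le)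
    have h2 := Real.log_two_gt_d9
    linarith
  -- the functions
  set Fm : ℕ → ℕ → ℝ → ℝ := fun p q t => (t + b) * Real.log p - (f t + b) * Real.log q with hFm
  set Fp : ℕ → ℕ → ℝ → ℝ := fun p q t => (t + b) * Real.log p + (f t + b) * Real.log q with hFp
  set gm : ℕ → ℕ → ℝ → ℝ := fun p q t => Real.log p - f' t * Real.log q with hgm
  set gp : ℕ → ℕ → ℝ → ℝ := fun p q t => Real.log p + f' t * Real.log q with hgp
  have hdm : ∀ p q, ∀ t ∈ Icc A B, HasDerivAt (Fm p q) (gm p q t) t := by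
    intro p q t ht
    have h1 : HasDerivAt (fun t : ℝ => (t + b) * Real.log p) (1 * Real.log p) t :=
      ((hasDerivAt_id t).add_const b).mul_const _
    have h2 : HasDerivAt (fun t : ℝ => (f t + b) * Real.log q) (f' t * Real.log q) t :=
      ((hf t ht).add_const b).mul_const _
    rw [one_mul] at h1
    exact h1.sub h2
  have hdp : ∀ p q, ∀ t ∈ Icc A B, HasDerivAt (Fp p q) (gp p q t) t := by
    intro p q t ht
    have h1 : HasDerivAt (fun t : ℝ => (t + b) * Real.log p) (1 * Real.log p) t :=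
      ((hasDerivAt_id t).add_const b).mul_const _
    have h2 : HasDerivAt (fun t : ℝ => (f t + b) * Real.log q) (f' t * Real.log q) t :=
      ((hf t ht).add_const b).mul_const _
    rw [one_mul] at h1
    exact h1.add h2
  have hmm : ∀ p, ∀ q ∈ Prm X, MonotoneOn (gm p q) (Icc A B) ∨ AntitoneOn (gm p q) (Icc A B) := by
    intro p q hq
    have hq0 : 0 ≤ Real.log q := by linarith [hlog q hq]
    rcases hmono with h | h
    · right
      intro x hx y hy hxy
      have := mul_le_mul_of_nonneg_right (h hx hy hxy) hq0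
      simp only [hgm]
      linarith
    · left
      intro x hx y hy hxy
      have := mul_le_mul_of_nonneg_right (h hx hy hxy) hq0
      simp only [hgm]
      linarith
  have hmp : ∀ p, ∀ q ∈ Prm X, MonotoneOn (gp p q) (Icc A B) ∨ AntitoneOn (gp p q) (Icc A B) := by
    intro p q hq
    have hq0 : 0 ≤ Real.log q := by linarith [hlog q hq]
    rcases hmono with h | h
    · left
      intro x hx y hy hxy
      have := mul_le_mul_of_nonneg_right (h hx hy hxy) hq0
      simp only [hgp]
      linarith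
    · right
      intro x hx y hy hxy
      have := mul_le_mul_of_nonneg_right (h hx hy hxy) hq0
      simp only [hgp]
      linarith
  have hci : ∀ (F : ℝ → ℝ) (g : ℝ → ℝ), (∀ t ∈ Icc A B, HasDerivAt F (g t) t) →
      IntervalIntegrable (fun t => Real.cos (F t)) volume A B := by
    intro F g h
    apply ContinuousOn.intervalIntegrable
    rw [uIcc_of_le hAB]
    exact fun t ht =>
      (Real.continuous_cos.continuousAt.comp (h t ht).continuousAt).continuousWithinAt
  set Im : ℕ → ℕ → ℝ := fun p q => ∫ t in A..B, Real.cos (Fm p q t) with hIm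
  set Ip : ℕ → ℕ → ℝ := fun p q => ∫ t in A..B, Real.cos (Fp p q t) with hIp
  -- expansion
  have hexp : ∫ t in A..B, (∑ p ∈ Prm X, u p * Real.cos ((t + b) * Real.log p)) *
        (∑ q ∈ Prm X, u q * Real.cos ((f t + b) * Real.log q)) =
      ∑ p ∈ Prm X, ∑ q ∈ Prm X, u p * u q / 2 * (Im p q + Ip p q) := by
    have h1 : ∀ t, (∑ p ∈ Prm X, u p * Real.cos ((t + b) * Real.log p)) *
        (∑ q ∈ Prm X, u q * Real.cos ((f t + b) * Real.log q)) =
        ∑ p ∈ Prm X, ∑ q ∈ Prm X,
          u p * u q / 2 * (Real.cos (Fm p q t) + Real.cos (Fp p q t)) := by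
      intro t
      rw [Finset.sum_mul_sum]
      refine Finset.sum_congr rfl fun p _ => Finset.sum_congr rfl fun q _ => ?_
      simp only [hFm, hFp]
      rw [Real.cos_sub, Real.cos_add]
      ring
    simp only [h1]
    have hii : ∀ p q, IntervalIntegrable
        (fun t => u p * u q / 2 * (Real.cos (Fm p q t) + Real.cos (Fp p q t))) volume A B :=
      fun p q => ((hci _ _ (hdm p q)).add (hci _ _ (hdp p q))).const_mul _
    rw [intervalIntegral.integral_finsetSum fun p _ => int_sum fun q _ => hii p q]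
    refine Finset.sum_congr rfl fun p _ => ?_
    rw [intervalIntegral.integral_finsetSum fun q _ => hii p q]
    refine Finset.sum_congr rfl fun q _ => ?_
    rw [intervalIntegral.integral_const_mul,
      intervalIntegral.integral_add (hci _ _ (hdm p q)) (hci _ _ (hdp p q))]
  -- bounds
  have hIpb : ∀ p ∈ Prm X, ∀ q ∈ Prm X, |Ip p q| ≤ 8 := by
    intro p hp q hq
    have h1 := fd (Fp p q) (gp p q) A B (1 / 2) hAB (by norm_num) (hdp p q) (hmp p q hq) (by
      intro t ht
      have h2 := (abs_le.1 (hf' t ht).2).1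
      have h3 := hlog p hp
      have h4 := hlog q hq
      have h5 : 0 ≤ f' t * Real.log q := mul_nonneg (by linarith) (by linarith)
      simp only [hgp]
      rw [abs_of_nonneg (by linarith)]
      linarith)
    norm_num at h1
    exact h1
  have hImd : ∀ p ∈ Prm X, |Im p p| ≤ 4 / (m * Real.log p) := by
    intro p hp
    have h3 := hlog p hp
    refine fd (Fm p p) (gm p p) A B (m * Real.log p) hAB (mul_pos hm (by linarith)) (hdm p p)
      (hmm p p hp) ?_
    intro t ht
    have h2 := (hf' t ht).1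
    simp only [hgm]
    have e : Real.log p - f' t * Real.log p = -((f' t - 1) * Real.log p) := by ring
    rw [e, abs_neg, abs_mul, abs_of_pos (by linarith : 0 < Real.log (p : ℝ))]
    exact mul_le_mul_of_nonneg_right h2 (by linarith)
  have hImo : ∀ p ∈ Prm X, ∀ q ∈ Prm X,
      |Im p q| ≤ 8 / θ + ∫ t in A..B, ind θ (gm p q t) := fun p _ q hq =>
    test fd hAB hθ0 (hdm p q) (hmm p q hq)
  have hindnn : ∀ p q, 0 ≤ ∫ t in A..B, ind θ (gm p q t) := fun p q =>
    intervalIntegral.integral_nonneg hAB fun t _ => ind_nonneg _ _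
  -- termwise
  have hterm : ∀ p ∈ Prm X, ∀ q ∈ Prm X, |u p * u q / 2 * (Im p q + Ip p q)| ≤
      (if p = q then 2 / m * (u p ^ 2 / Real.log p) else 0) + (4 + 4 / θ) +
        (if q ≠ p then |u p| * |u q| * (∫ t in A..B, ind θ (gm p q t)) / 2 else 0) := by
    intro p hp q hq
    have hup := hu1 p hp
    have huq := hu1 q hq
    have hup0 := abs_nonneg (u p)
    have huq0 := abs_nonneg (u q)
    have huu : |u p| * |u q| ≤ 1 := mul_le_one₀ hup huq0 huq
    have huu0 : 0 ≤ |u p| * |u q| := mul_nonneg hup0 huq0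
    have h1 := hIpb p hp q hq
    have hθ4 : 0 < 4 / θ := by positivity
    have e0 : |u p * u q / 2 * (Im p q + Ip p q)| =
        |u p| * |u q| / 2 * |Im p q + Ip p q| := by
      rw [abs_mul, abs_div, abs_mul, abs_two]
    have e1 : |Im p q + Ip p q| ≤ |Im p q| + 8 := (abs_add_le _ _).trans (by linarith)
    have e2 : |u p| * |u q| / 2 * |Im p q + Ip p q| ≤ |u p| * |u q| / 2 * (|Im p q| + 8) :=
      mul_le_mul_of_nonneg_left e1 (by linarith)
    rw [e0]
    by_cases hpq : p = q
    · subst hpq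
      rw [if_pos rfl, if_neg (by simp)]
      have h3 := hlog p hp
      have e3 : |u p| * |u p| / 2 * |Im p p| ≤ |u p| * |u p| / 2 * (4 / (m * Real.log p)) :=
        mul_le_mul_of_nonneg_left (hImd p hp) (by linarith)
      have e4 : |u p| * |u p| / 2 * (4 / (m * Real.log p)) = 2 / m * (u p ^ 2 / Real.log p) := by
        rw [abs_mul_abs_self]
        have : Real.log (p : ℝ) ≠ 0 := by linarith
        field_simp
        ring
      have e5 : |u p| * |u p| / 2 * (|Im p p| + 8) =
        |u p| * |u p| / 2 * |Im p p| + 4 * (|u p| * |u p|) := by ring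
      linarith
    · rw [if_neg hpq, if_pos (Ne.symm hpq)]
      have e3 : |u p| * |u q| / 2 * |Im p q| ≤ |u p| * |u q| / 2 *
          (8 / θ + ∫ t in A..B, ind θ (gm p q t)) :=
        mul_le_mul_of_nonneg_left (hImo p hp q hq) (by linarith)
      have e4 : |u p| * |u q| / 2 * (8 / θ + ∫ t in A..B, ind θ (gm p q t)) =
          |u p| * |u q| * (4 / θ) + |u p| * |u q| * (∫ t in A..B, ind θ (gm p q t)) / 2 := by
        ring
      have e5 : |u p| * |u q| * (4 / θ) ≤ 1 * (4 / θ) :=
        mul_le_mul_of_nonneg_right huu hθ4.le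
      have e6 : |u p| * |u q| / 2 * (|Im p q| + 8) =
        |u p| * |u q| / 2 * |Im p q| + 4 * (|u p| * |u q|) := by ring
      linarith
  -- the near diagonal part
  have hnear : ∑ p ∈ Prm X, ∑ q ∈ Prm X,
      (if q ≠ p then |u p| * |u q| * (∫ t in A..B, ind θ (gm p q t)) / 2 else 0) ≤
      ε * T / 2 := by
    have hii : ∀ p, ∀ q ∈ Prm X, IntervalIntegrable (fun t =>
        if q ≠ p then |u p| * |u q| * ind θ (gm p q t) else 0) volume A B := by
      intro p q hq
      by_cases h : q ≠ p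
      · simp only [if_pos h]
        exact (ind_int hAB (hmm p q hq) θ).const_mul _
      · simp only [if_neg h]
        exact intervalIntegrable_const
    have e1 : ∑ p ∈ Prm X, ∑ q ∈ Prm X,
        (if q ≠ p then |u p| * |u q| * (∫ t in A..B, ind θ (gm p q t)) / 2 else 0) =
        (∫ t in A..B, ∑ p ∈ Prm X, ∑ q ∈ Prm X,
          if q ≠ p then |u p| * |u q| * ind θ (gm p q t) else 0) / 2 := by
      rw [intervalIntegral.integral_finsetSum fun p _ => int_sum fun q hq => hii p q hq,
        Finset.sum_div]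
      refine Finset.sum_congr rfl fun p _ => ?_
      rw [intervalIntegral.integral_finsetSum fun q hq => hii p q hq, Finset.sum_div]
      refine Finset.sum_congr rfl fun q _ => ?_
      by_cases h : q ≠ p
      · simp only [if_pos h]
        rw [intervalIntegral.integral_const_mul]
      · simp only [if_neg h]
        simp
    rw [e1]
    have e2 : ∫ t in A..B, (∑ p ∈ Prm X, ∑ q ∈ Prm X,
          if q ≠ p then |u p| * |u q| * ind θ (gm p q t) else 0) ≤ ∫ _ in A..B, ε := by
      refine intervalIntegral.integral_mono_on hAB ?_ intervalIntegrable_const ?_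
      · exact int_sum fun p _ => int_sum fun q hq => hii p q hq
      · intro t ht
        have h1 := abs_le.1 (hf' t ht).2
        have h2 := hlp T hTT0 X hX u hu (f' t) (by linarith) (by linarith)
        refine le_trans (le_of_eq ?_) h2
        refine Finset.sum_congr rfl fun p _ => ?_
        rw [Finset.sum_filter]
        refine Finset.sum_congr rfl fun q _ => ?_
        by_cases h : q ≠ p
        · rw [if_pos h]
          unfold ind
          by_cases h' : |gm p q t| ≤ θ
          · rw [if_pos h', if_pos ⟨h, h'⟩, mul_one]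
          · rw [if_neg h', if_neg fun h'' => h' h''.2, mul_zero]
        · rw [if_neg h, if_neg fun h'' => h h''.1]
    rw [intervalIntegral.integral_const, smul_eq_mul] at e2
    have e3 : (B - A) * ε ≤ T * ε := mul_le_mul_of_nonneg_right hBA hε.le
    linarith
  -- the crude part
  have hcrude : ((Prm X).card : ℝ) * ((Prm X).card * (4 + 4 / θ)) ≤ ε * T / 2 := by
    have h1 := card_Prm X
    have h2 : ((Prm X).card : ℝ) ≤ T ^ (1 / 64 : ℝ) := h1.trans hX
    have h3 : 4 + 4 / θ ≤ 8 * T ^ (1 / 2 : ℝ) := by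
      have e1 : 1 / θ = T ^ (1 / 2 : ℝ) := by
        rw [hθ, Real.rpow_neg hTpos.le, one_div, inv_inv]
      have e2 : 4 / θ = 4 * T ^ (1 / 2 : ℝ) := by rw [← e1]; ring
      have e3 : 1 ≤ T ^ (1 / 2 : ℝ) := Real.one_le_rpow hT1 (by norm_num)
      linarith
    have h4 : ((Prm X).card : ℝ) * ((Prm X).card * (4 + 4 / θ)) ≤
        T ^ (1 / 64 : ℝ) * (T ^ (1 / 64 : ℝ) * (8 * T ^ (1 / 2 : ℝ))) := by
      have : 0 < θ := hθ0
      gcongr
    refine h4.trans ?_
    have h5 : T ^ (1 / 64 : ℝ) * (T ^ (1 / 64 : ℝ) * (8 * T ^ (1 / 2 : ℝ))) =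
        8 * T ^ (17 / 32 : ℝ) := by
      have e1 : T ^ (17 / 32 : ℝ) = T ^ (1 / 64 : ℝ) * (T ^ (1 / 64 : ℝ) * T ^ (1 / 2 : ℝ)) := by
        rw [← Real.rpow_add hTpos, ← Real.rpow_add hTpos]
        norm_num
      rw [e1]
      ring
    rw [h5]
    have h6 : 16 / ε ≤ T ^ (15 / 32 : ℝ) := by
      have e1 : T ^ (1 / 4 : ℝ) ≤ T ^ (15 / 32 : ℝ) :=
        Real.rpow_le_rpow_of_exponent_le hT1 (by norm_num)
      have e2 : ((16 / ε) ^ 4) ^ (1 / 4 : ℝ) ≤ T ^ (1 / 4 : ℝ) :=
        Real.rpow_le_rpow (by positivity) hTε (by norm_num)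
      have e3 : ((16 / ε) ^ 4) ^ (1 / 4 : ℝ) = 16 / ε := by
        rw [← Real.rpow_natCast, ← Real.rpow_mul (by positivity)]
        norm_num
      linarith
    have h7 : T = T ^ (17 / 32 : ℝ) * T ^ (15 / 32 : ℝ) := by
      rw [← Real.rpow_add hTpos]
      norm_num
    have h8 : 0 < T ^ (17 / 32 : ℝ) := Real.rpow_pos_of_pos hTpos _
    have h9 : T ^ (17 / 32 : ℝ) * (16 / ε) ≤ T := by
      nth_rewrite 2 [h7]
      exact mul_le_mul_of_nonneg_left h6 h8.le
    have h10 : ε * (T ^ (17 / 32 : ℝ) * (16 / ε)) ≤ ε * T := mul_le_mul_of_nonneg_left h9 hε.le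
    have h11 : ε * (T ^ (17 / 32 : ℝ) * (16 / ε)) = 16 * T ^ (17 / 32 : ℝ) := by
      field_simp
    linarith
  rw [hexp]
  refine (Finset.abs_sum_le_sum_abs _ _).trans ?_
  have hA : ∑ p ∈ Prm X, |∑ q ∈ Prm X, u p * u q / 2 * (Im p q + Ip p q)| ≤
      ∑ p ∈ Prm X, ∑ q ∈ Prm X, ((if p = q then 2 / m * (u p ^ 2 / Real.log p) else 0) +
        (4 + 4 / θ) +
        (if q ≠ p then |u p| * |u q| * (∫ t in A..B, ind θ (gm p q t)) / 2 else 0)) :=
    Finset.sum_le_sum fun p hp => (Finset.abs_sum_le_sum_abs _ _).trans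
      (Finset.sum_le_sum fun q hq => hterm p hp q hq)
  refine hA.trans ?_
  have hB : ∑ p ∈ Prm X, ∑ q ∈ Prm X, ((if p = q then 2 / m * (u p ^ 2 / Real.log p) else 0) +
        (4 + 4 / θ) +
        (if q ≠ p then |u p| * |u q| * (∫ t in A..B, ind θ (gm p q t)) / 2 else 0)) =
      2 / m * ∑ p ∈ Prm X, u p ^ 2 / Real.log p +
      ((Prm X).card : ℝ) * ((Prm X).card * (4 + 4 / θ)) +
      ∑ p ∈ Prm X, ∑ q ∈ Prm X,
        (if q ≠ p then |u p| * |u q| * (∫ t in A..B, ind θ (gm p q t)) / 2 else 0) := by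
    simp only [Finset.sum_add_distrib]
    congr 1
    congr 1
    · rw [Finset.mul_sum]
      refine Finset.sum_congr rfl fun p hp => ?_
      rw [Finset.sum_ite_eq, if_pos hp]
    · simp only [Finset.sum_const, nsmul_eq_mul]
      ring
  rw [hB]
  have hC : 0 ≤ ∑ p ∈ Prm X, u p ^ 2 / Real.log p :=
    Finset.sum_nonneg fun p hp => div_nonneg (sq_nonneg _) (by linarith [hlog p hp])
  have hD : 2 / m * ∑ p ∈ Prm X, u p ^ 2 / Real.log p ≤
      4 / m * ∑ p ∈ Prm X, u p ^ 2 / Real.log p := by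
    gcongr
    norm_num
  linarith

end Pool.Agent.Y888.CR
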