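import Pool.Agent.Y743.SD.Stm

/-! SD-IT: iteration of a matching. -/

set_option autoImplicit false

namespace Pool.Agent.Y888.IT

/-- The drift along an orbit that stays in `G`. -/
theorem drift (g : ℕ → ℝ) (c w : ℝ) (G : Finset ℕ) (σ : ℕ → ℕ)
    (h : ∀ n ∈ G, |g (σ n) - (g n + c)| ≤ w) (n : ℕ) :
    ∀ i : ℕ, (∀ k, k < i → σ^[k] n ∈ G) → |g (σ^[i] n) - (g n + i * c)| ≤ i * w := by
  intro i
  induction i with
  | zero => intro _; simp
  | succ i ih =>
    intro hi
    have h1 := ih (fun k hk => hi k (Nat.lt_succ_of_lt hk))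
    have h2 := h _ (hi i (Nat.lt_succ_self i))
    rw [Function.iterate_succ_apply']
    rw [abs_le] at h1 h2 ⊢
    push_cast
    constructor <;> nlinarith [h1.1, h1.2, h2.1, h2.2]

/-- Iterates are injective on the orbits that stay in `G`. -/
theorem inj_iter (G : Finset ℕ) (σ : ℕ → ℕ) (h : Set.InjOn σ G) :
    ∀ (i : ℕ) (n m : ℕ), (∀ k, k < i → σ^[k] n ∈ G) → (∀ k, k < i → σ^[k] m ∈ G) →
      σ^[i] n = σ^[i] m → n = m := by
  intro i
  induction i with
  | zero => intro n m _ _ h; simpa using h
  | succ i ih =>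
    intro n m hn hm he
    rw [Function.iterate_succ_apply', Function.iterate_succ_apply'] at he
    have h1 : σ^[i] n = σ^[i] m :=
      h (by exact_mod_cast hn i (Nat.lt_succ_self i))
        (by exact_mod_cast hm i (Nat.lt_succ_self i)) he
    exact ih n m (fun k hk => hn k (Nat.lt_succ_of_lt hk))
      (fun k hk => hm k (Nat.lt_succ_of_lt hk)) h1

/-- Iteration of a matching. -/
theorem it : Pool.Agent.Y743.SD.S_IT := by
  classical
  intro S g T c w hw hS G σ hGS hinj hG j hj
  set D : ℝ := j * (|c| + w) with hD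
  set I : Finset ℕ := S.filter (fun n => ¬ (g n ≤ T + D ∨ 2 * T - D < g n)) with hI
  set G' : Finset ℕ := I.filter (fun n => ∀ k, k < j → σ^[k] n ∈ G) with hG'
  have hc : 0 ≤ |c| := abs_nonneg c
  have hIS : I ⊆ S := Finset.filter_subset _ _
  have hG'I : G' ⊆ I := Finset.filter_subset _ _
  refine ⟨G', σ^[j], hG'I.trans hIS, ?_, ?_, ?_⟩
  · intro n hn m hm he
    have hn' := (Finset.mem_filter.mp (Finset.mem_coe.mp hn)).2
    have hm' := (Finset.mem_filter.mp (Finset.mem_coe.mp hm)).2
    exact inj_iter G σ hinj j n m hn' hm' he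
  · intro n hn
    exact drift g c w G σ hG n j (Finset.mem_filter.mp hn).2
  · -- the sets of first exits
    let E : ℕ → Finset ℕ := fun i => I.filter
      (fun n => (∀ k, k < i → σ^[k] n ∈ G) ∧ σ^[i] n ∉ G)
    have hE : ∀ i, i < j → (E i).card ≤ (S \ G).card := by
      intro i hij
      refine Finset.card_le_card_of_injOn (fun n => σ^[i] n) ?_ ?_
      · intro n hn
        have hn0 := Finset.mem_filter.mp (Finset.mem_coe.mp hn)
        have hnI := (Finset.mem_filter.mp hn0.1).2
        push Not at hnI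
        have hd := drift g c w G σ hG n i hn0.2.1
        rw [abs_le] at hd
        have hij' : (i : ℝ) ≤ j := by exact_mod_cast hij.le
        have hi0 : (0 : ℝ) ≤ i := Nat.cast_nonneg i
        have hcD : (i : ℝ) * (|c| + w) ≤ D := by
          rw [hD]; exact mul_le_mul_of_nonneg_right hij' (by positivity)
        have hc1 : (i : ℝ) * c ≤ i * |c| := mul_le_mul_of_nonneg_left (le_abs_self c) hi0
        have hc2 : -((i : ℝ) * |c|) ≤ i * c := by
          have := mul_le_mul_of_nonneg_left (neg_abs_le c) hi0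
          linarith
        have hmem : σ^[i] n ∈ S := by
          rw [hS]
          constructor
          · nlinarith [hnI.1, hd.1]
          · nlinarith [hnI.2, hd.2]
        simp only [Finset.coe_sdiff, Set.mem_sdiff, Finset.mem_coe]
        exact ⟨hmem, hn0.2.2⟩
      · intro n hn m hm he
        have hn0 := (Finset.mem_filter.mp (Finset.mem_coe.mp hn)).2
        have hm0 := (Finset.mem_filter.mp (Finset.mem_coe.mp hm)).2
        exact inj_iter G σ hinj i n m hn0.1 hm0.1 he
    have hcov : I \ G' ⊆ (Finset.range j).biUnion E := by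
      intro n hn
      rw [Finset.mem_sdiff] at hn
      have hex : ∃ k, k < j ∧ σ^[k] n ∉ G := by
        by_contra hcon
        push Not at hcon
        exact hn.2 (Finset.mem_filter.mpr ⟨hn.1, hcon⟩)
      have hmin := Nat.find_spec hex
      rw [Finset.mem_biUnion]
      refine ⟨Nat.find hex, Finset.mem_range.mpr hmin.1, ?_⟩
      refine Finset.mem_filter.mpr ⟨hn.1, ?_, hmin.2⟩
      intro k hk
      by_contra hkG
      exact Nat.find_min hex hk ⟨hk.trans hmin.1, hkG⟩
    have hcard : (I \ G').card ≤ j * (S \ G).card := by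
      calc (I \ G').card ≤ ((Finset.range j).biUnion E).card := Finset.card_le_card hcov
        _ ≤ ∑ i ∈ Finset.range j, (E i).card := Finset.card_biUnion_le
        _ ≤ ∑ _i ∈ Finset.range j, (S \ G).card :=
            Finset.sum_le_sum (fun i hi => hE i (Finset.mem_range.mp hi))
        _ = j * (S \ G).card := by simp
    have hsub : S \ G' ⊆ (I \ G') ∪
        S.filter (fun n => g n ≤ T + D ∨ 2 * T - D < g n) := by
      intro n hn
      rw [Finset.mem_sdiff] at hn
      rw [Finset.mem_union]
      by_cases hx : g n ≤ T + D ∨ 2 * T - D < g n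
      · exact Or.inr (Finset.mem_filter.mpr ⟨hn.1, hx⟩)
      · exact Or.inl (Finset.mem_sdiff.mpr ⟨Finset.mem_filter.mpr ⟨hn.1, hx⟩, hn.2⟩)
    calc (S \ G').card ≤ ((I \ G') ∪
          S.filter (fun n => g n ≤ T + D ∨ 2 * T - D < g n)).card := Finset.card_le_card hsub
      _ ≤ (I \ G').card + (S.filter (fun n => g n ≤ T + D ∨ 2 * T - D < g n)).card :=
          Finset.card_union_le _ _
      _ ≤ j * (S \ G).card + (S.filter (fun n => g n ≤ T + D ∨ 2 * T - D < g n)).card := by
          omega

end Pool.Agent.Y888.IT
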