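import Pool.Agent.Y593.LC.HC

/-! Project HF (helper593), part C1: scale invariance and derivatives. -/

set_option autoImplicit false

namespace Pool.Agent.Y888.HF1

open Pool.Agent.H660R3 Pool.Agent.H660R3.Stair Real Pool.Agent.Y593.LC.HC

/-- coordinates -/
noncomputable def pj (i : Fin 4) : EE 4 →L[ℝ] ℝ := EuclideanSpace.proj i

theorem pj_apply (i : Fin 4) (y : EE 4) : pj i y = y i := rfl

theorem n2_pos {y : EE 4} (h : y ≠ 0) : 0 < n2 y := by
  have h0 := sq_nonneg (y 0)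
  have h1 := sq_nonneg (y 1)
  have h2 := sq_nonneg (y 2)
  have h3 := sq_nonneg (y 3)
  refine lt_of_le_of_ne (by unfold n2; linarith) fun he => h ?_
  unfold n2 at he
  have e0 : y 0 = 0 := pow_eq_zero_iff two_ne_zero |>.1 (le_antisymm (by linarith) h0)
  have e1 : y 1 = 0 := pow_eq_zero_iff two_ne_zero |>.1 (le_antisymm (by linarith) h1)
  have e2 : y 2 = 0 := pow_eq_zero_iff two_ne_zero |>.1 (le_antisymm (by linarith) h2)
  have e3 : y 3 = 0 := pow_eq_zero_iff two_ne_zero |>.1 (le_antisymm (by linarith) h3)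
  ext i
  fin_cases i
  · exact e0
  · exact e1
  · exact e2
  · exact e3

theorem n2_smul (c : ℝ) (y : EE 4) : n2 (c • y) = c ^ 2 * n2 y := by
  unfold n2
  simp only [PiLp.smul_apply, smul_eq_mul]
  ring

theorem ip_smul (c : ℝ) (y u : EE 4) : ip (c • y) (c • u) = c ^ 2 * ip y u := by
  unfold ip
  simp only [PiLp.smul_apply, smul_eq_mul]
  ring

theorem jp_smul (c : ℝ) (y u : EE 4) : jp (c • y) (c • u) = c ^ 2 * jp y u := by
  unfold jp
  simp only [PiLp.smul_apply, smul_eq_mul]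
  ring

theorem log2_pos : 0 < Real.log 2 := Real.log_pos (by norm_num)

theorem th_scale (m : ℤ) {y : EE 4} (h : y ≠ 0) : th ((2 : ℝ) ^ m • y) = th y + m := by
  have hl := log2_pos.ne'
  have hc : ((2 : ℝ) ^ m) ^ 2 ≠ 0 := by positivity
  unfold th
  rw [n2_smul, Real.log_mul hc (n2_pos h).ne', Real.log_pow, Real.log_zpow]
  field_simp
  push_cast
  ring

theorem WW_scale (m : ℤ) {y : EE 4} (h : y ≠ 0) : WW ((2 : ℝ) ^ m • y) = WW y := by
  unfold WW
  refine Finset.sum_congr rfl fun i _ => ?_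
  rw [th_scale m h, n2_smul]
  have e : th y + (m : ℝ) - ((i : ℕ) : ℝ) / 4 = (th y - ((i : ℕ) : ℝ) / 4) + m := by ring
  rw [e, hs_add_int]
  have hc : (2 : ℝ) ^ m ≠ 0 := by positivity
  have hn := (n2_pos h).ne'
  congr 1
  simp only [PiLp.smul_apply, smul_eq_mul]
  field_simp

theorem bl_scale (ε : ℝ) (m : ℤ) {y : EE 4} (h : y ≠ 0) (u : EE 4) :
    bl ε ((2 : ℝ) ^ m • y) ((2 : ℝ) ^ m • u) = bl ε y u := by
  unfold bl
  have hc : (2 : ℝ) ^ m ≠ 0 := by positivity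
  rw [WW_scale m h, jp_smul, n2_smul, mul_div_mul_left _ _ (pow_ne_zero 2 hc)]

theorem al_scale (m : ℤ) {y : EE 4} (h : y ≠ 0) (u : EE 4) :
    al ((2 : ℝ) ^ m • y) ((2 : ℝ) ^ m • u) = al y u := by
  unfold al
  have hc : (2 : ℝ) ^ m ≠ 0 := by positivity
  rw [ip_smul, n2_smul, mul_left_comm, mul_div_mul_left _ _ (pow_ne_zero 2 hc)]

/-- the functional `⟨y, ·⟩` -/
noncomputable def PP (y : EE 4) : EE 4 →L[ℝ] ℝ :=
  y 0 • pj 0 + y 1 • pj 1 + y 2 • pj 2 + y 3 • pj 3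

theorem PP_apply (y u : EE 4) : PP y u = ip y u := by
  unfold PP ip
  simp only [add_apply, smul_apply, smul_eq_mul, pj_apply]

theorem sq_hasFDerivAt (i : Fin 4) (y : EE 4) :
    HasFDerivAt (fun z : EE 4 => z i ^ 2) ((2 * y i) • pj i) y := by
  have h := ((pj i).hasFDerivAt (x := y)).pow 2
  refine (h.congr_fderiv ?_)
  ext u
  simp [pj_apply]

theorem n2_hasFDerivAt (y : EE 4) : HasFDerivAt n2 ((2 : ℝ) • PP y) y := by
  have h := (((sq_hasFDerivAt 0 y).add (sq_hasFDerivAt 1 y)).add (sq_hasFDerivAt 2 y)).add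
    (sq_hasFDerivAt 3 y)
  refine (h.congr_fderiv ?_)
  ext u
  simp only [add_apply, smul_apply, smul_eq_mul, pj_apply,
    PP_apply, ip]
  ring

theorem inv_hasFDerivAt {y : EE 4} (h : y ≠ 0) :
    HasFDerivAt (fun z : EE 4 => (n2 z)⁻¹) ((-(n2 y ^ 2)⁻¹) • ((2 : ℝ) • PP y)) y :=
  (hasDerivAt_inv (n2_pos h).ne').comp_hasFDerivAt y (n2_hasFDerivAt y)

theorem th_hasFDerivAt {y : EE 4} (h : y ≠ 0) :
    HasFDerivAt th ((Real.log 2 * n2 y)⁻¹ • PP y) y := by
  have h1 := ((n2_hasFDerivAt y).log (n2_pos h).ne').mul_const (2 * Real.log 2)⁻¹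
  have e : th = fun z => Real.log (n2 z) * (2 * Real.log 2)⁻¹ := by
    funext z
    unfold th
    rw [div_eq_mul_inv]
  rw [e]
  refine (h1.congr_fderiv ?_)
  have hn := (n2_pos h).ne'
  have hl := log2_pos.ne'
  ext u
  simp only [smul_apply, smul_eq_mul]
  field_simp

theorem WW_hasFDerivAt {y : EE 4} (h : y ≠ 0) :
    ∃ D : EE 4 →L[ℝ] ℝ, HasFDerivAt WW D y ∧ ∀ u, D u = dW y u := by
  have hC : ∀ i : Fin 4, HasFDerivAt (fun z : EE 4 => hs (th z - (i : ℕ) / 4))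
      ((1 - ee (th y - (i : ℕ) / 4)) • ((Real.log 2 * n2 y)⁻¹ • PP y)) y := by
    intro i
    have h1 := (th_hasFDerivAt h).sub_const (((i : ℕ) : ℝ) / 4)
    exact (hasDerivAt_hs _).comp_hasFDerivAt y h1
  have hT : ∀ i : Fin 4, HasFDerivAt
      (fun z : EE 4 => z i ^ 2 * (n2 z)⁻¹ * hs (th z - (i : ℕ) / 4)) _ y :=
    fun i => ((sq_hasFDerivAt i y).mul (inv_hasFDerivAt h)).mul (hC i)
  have e : WW = fun z : EE 4 => ∑ i : Fin 4, z i ^ 2 * (n2 z)⁻¹ * hs (th z - (i : ℕ) / 4) := by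
    funext z
    unfold WW
    refine Finset.sum_congr rfl fun i _ => ?_
    rw [div_eq_mul_inv]
  rw [e]
  refine ⟨_, HasFDerivAt.fun_sum (u := Finset.univ) fun i _ => hT i, fun u => ?_⟩
  simp only [FunLike.coe_sum, Finset.sum_apply, dW]
  refine Finset.sum_congr rfl fun i _ => ?_
  have hn := (n2_pos h).ne'
  have hl := log2_pos.ne'
  simp only [add_apply, smul_apply, smul_eq_mul, pj_apply,
    PP_apply, Pi.mul_apply]
  field_simp
  ring

/-- the functional `z ↦ ⟨Jz, v⟩` -/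
noncomputable def JJ (v : EE 4) : EE 4 →L[ℝ] ℝ :=
  v 1 • pj 0 - v 0 • pj 1 + (v 3 • pj 2 - v 2 • pj 3)

theorem JJ_apply (v z : EE 4) : JJ v z = jp z v := by
  unfold JJ jp
  simp only [add_apply, sub_apply,
    smul_apply, smul_eq_mul, pj_apply]
  ring

theorem jp_hasFDerivAt (v y : EE 4) : HasFDerivAt (fun z : EE 4 => jp z v) (JJ v) y := by
  have e : (fun z : EE 4 => jp z v) = fun z => JJ v z := by
    funext z
    rw [JJ_apply]
  rw [e]
  exact (JJ v).hasFDerivAt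

theorem ip_hasFDerivAt (v y : EE 4) : HasFDerivAt (fun z : EE 4 => ip z v) (PP v) y := by
  have e : (fun z : EE 4 => ip z v) = fun z => PP v z := by
    funext z
    rw [PP_apply]
    unfold ip
    ring
  rw [e]
  exact (PP v).hasFDerivAt

theorem bl_fderiv (ε : ℝ) {y : EE 4} (h : y ≠ 0) (u v : EE 4) :
    fderiv ℝ (fun z => bl ε z v) y u = exp (ε * WW y) * (ε * dW y u * (jp y v / n2 y) +
      (jp u v / n2 y - 2 * (ip y u * jp y v) / n2 y ^ 2)) := by
  obtain ⟨D, hD, hD2⟩ := WW_hasFDerivAt h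
  have h1 : HasFDerivAt (fun z => exp (ε * WW z)) (exp (ε * WW y) • (ε • D)) y :=
    (hD.const_mul ε).exp
  have h2 := h1.mul ((jp_hasFDerivAt v y).mul (inv_hasFDerivAt h))
  have e : (fun z => bl ε z v) = fun z => exp (ε * WW z) * (jp z v * (n2 z)⁻¹) := by
    funext z
    unfold bl
    rw [div_eq_mul_inv]
  have h3 : HasFDerivAt (fun z : EE 4 => exp (ε * WW z) * (jp z v * (n2 z)⁻¹)) _ y := h2
  rw [e, h3.fderiv]
  have hn := (n2_pos h).ne'
  simp only [add_apply, smul_apply, smul_eq_mul, hD2,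
    PP_apply, JJ_apply, Pi.mul_apply]
  field_simp
  ring

theorem bl_d (ε : ℝ) {y : EE 4} (h : y ≠ 0) (u v : EE 4) :
    fderiv ℝ (fun z => bl ε z v) y u - fderiv ℝ (fun z => bl ε z u) y v =
      exp (ε * WW y) *
        (ε * (dW y u * (jp y v / n2 y) - dW y v * (jp y u / n2 y)) + d0 y u v) := by
  rw [bl_fderiv ε h u v, bl_fderiv ε h v u]
  have e : jp v u = - jp u v := by
    unfold jp
    ring
  rw [e]
  unfold d0
  ring

theorem al_fderiv {y : EE 4} (h : y ≠ 0) (u v : EE 4) :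
    fderiv ℝ (fun z => al z v) y u = (ip u v * (n2 y)⁻¹ -
      2 * (ip y u * ip y v) * (n2 y ^ 2)⁻¹) * (Real.log 2)⁻¹ := by
  have h2 := ((ip_hasFDerivAt v y).mul (inv_hasFDerivAt h)).mul_const (Real.log 2)⁻¹
  have e : (fun z => al z v) = fun z => ip z v * (n2 z)⁻¹ * (Real.log 2)⁻¹ := by
    funext z
    unfold al
    rw [div_eq_mul_inv, mul_inv]
    ring
  have h3 : HasFDerivAt (fun z : EE 4 => ip z v * (n2 z)⁻¹ * (Real.log 2)⁻¹) _ y := h2
  rw [e, h3.fderiv]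
  have e2 : ip v u = ip u v := by
    unfold ip
    ring
  simp only [add_apply, smul_apply, smul_eq_mul,
    PP_apply, e2]
  ring

theorem al_d {y : EE 4} (h : y ≠ 0) (u v : EE 4) :
    fderiv ℝ (fun z => al z v) y u - fderiv ℝ (fun z => al z u) y v = 0 := by
  rw [al_fderiv h u v, al_fderiv h v u]
  have e2 : ip v u = ip u v := by
    unfold ip
    ring
  rw [e2]
  ring

end Pool.Agent.Y888.HF1
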